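import Pool.Agent.E8helper94.Assemble

/-!
# MP_3c5a12_nt, Q1: `S_d(n) ≡ 0 (mod Φ_n(q)³)` for odd `d ≥ 5` and `n ≡ -1 (mod d)`
-/

namespace Pool.Agent.Results.MP_3c5a12_nt.CubeCongruenceH94

open Polynomial Finset

/-- The field `ℚ(q)`. -/
abbrev Kq : Type := RatFunc ℚ

/-- The indeterminate `q`. -/
noncomputable def q : Kq := RatFunc.X

/-- `[m] = (1 - q^m) / (1 - q)`. -/
noncomputable def qInt (m : ℕ) : Kq := (1 - q ^ m) / (1 - q)

/-- The `q`-shifted factorial `(a; p)_k = ∏_{j<k} (1 - a p^j)`. -/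
noncomputable def poch (a p : Kq) (k : ℕ) : Kq := ∏ j ∈ range k, (1 - a * p ^ j)

/-- `S_d(n) = ∑_{0 ≤ k ≤ n-1} [2dk+1] ((q; q^d)_k / (q^d; q^d)_k)^d q^{d(d-3)k/2}`. -/
noncomputable def S (d n : ℕ) : Kq :=
  ∑ k ∈ range n, qInt (2 * d * k + 1) * (poch q (q ^ d) k / poch (q ^ d) (q ^ d) k) ^ d *
    q ^ (d * (d - 3) * k / 2)

/-- The embedding `ℤ[q] → ℚ(q)`. -/
noncomputable def emb (P : ℤ[X]) : Kq :=
  algebraMap ℚ[X] (RatFunc ℚ) (P.map (Int.castRingHom ℚ))

/-- `R ≡ 0 (mod Φ_n(q)^j)`: `R = Φ_n(q)^j A(q)/B(q)` with `A, B ∈ ℤ[q]` and `Φ_n ∤ B`. -/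
def DivPow (R : Kq) (n j : ℕ) : Prop :=
  ∃ A B : ℤ[X], ¬ (cyclotomic n ℤ ∣ B) ∧ R = emb (cyclotomic n ℤ) ^ j * emb A / emb B

theorem result (d : ℕ) (hd : Odd d) (hd5 : 5 ≤ d) (n : ℕ) (hn : 0 < n)
    (hmod : (n : ℤ) ≡ -1 [ZMOD d]) : DivPow (S d n) n 3 := by
  obtain ⟨r, hr⟩ := hd
  have hr2 : 2 ≤ r := by omega
  obtain ⟨m, hm⟩ : ∃ m : ℕ, n + 1 = d * m := by
    have h1 : (d : ℤ) ∣ (n + 1 : ℕ) := by
      have h2 := hmod.symm.dvd
      push_cast
      simpa [sub_neg_eq_add] using h2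
    exact_mod_cast h1
  have hm1 : 1 ≤ m := by
    rcases Nat.eq_zero_or_pos m with h0 | h0
    · rw [h0] at hm; omega
    · exact h0
  obtain ⟨A, hA⟩ := E8H94.WP.cube_dvd_NN hr hr2 hm1 hm
  set t : ℕ → ℕ := fun i => r + 1 + i with ht
  set T : ℤ[X] := ∏ j ∈ range (n - 1), (1 - X ^ (d + d * j)) with hT
  set E : ℤ[X] := ∏ i ∈ range r, (X ^ (n * t i)) ^ (n - 1) with hE
  refine ⟨A, E * ((1 - X) * T ^ d), ?_, ?_⟩
  · -- `Φ_n ∤ B`
    intro hdvd
    obtain ⟨ζ, hζ⟩ : ∃ ζ : ℂ, IsPrimitiveRoot ζ n := ⟨_, Complex.isPrimitiveRoot_exp n hn.ne'⟩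
    have hn5 : 5 * 1 ≤ d * m := Nat.mul_le_mul hd5 hm1
    have hζ0 : ζ ≠ 0 := hζ.ne_zero hn.ne'
    have hcop : Nat.Coprime d n := by
      have h1 : Nat.Coprime (d * m) n := by rw [← hm]; simp
      exact Nat.Coprime.coprime_mul_right h1
    have hp : IsPrimitiveRoot (ζ ^ d) n := hζ.pow_of_coprime d hcop
    have h0 := E8H94.WP.root_of_cyclotomic_dvd hn hζ hdvd
    simp only [hE, hT, map_mul, map_prod, map_pow, map_sub, map_one, aeval_X] at h0
    rcases mul_eq_zero.mp h0 with h1 | h1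
    · rw [prod_eq_zero_iff] at h1
      obtain ⟨i, _, hi⟩ := h1
      exact pow_ne_zero _ (pow_ne_zero _ hζ0) hi
    · rcases mul_eq_zero.mp h1 with h2 | h2
      · rw [sub_eq_zero] at h2
        have := hζ.dvd_of_pow_eq_one 1 (by rw [pow_one]; exact h2.symm)
        have := Nat.le_of_dvd one_pos this
        omega
      · have h3 := pow_eq_zero_iff (by omega : d ≠ 0) |>.mp h2
        rw [prod_eq_zero_iff] at h3
        obtain ⟨j, hj, hj'⟩ := h3
        rw [sub_eq_zero] at hj'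
        have hj'' := mem_range.mp hj
        have h4 : (ζ ^ d) ^ (j + 1) = 1 := by
          rw [← pow_mul, hj']; congr 1; ring
        have := hp.dvd_of_pow_eq_one _ h4
        have := Nat.le_of_dvd (by omega) this
        omega
  · -- the value
    have hemb : ∀ P : ℤ[X], emb P = E8H94.WP.toRat P := fun P => rfl
    simp only [hemb]
    rw [← map_pow, ← map_mul, ← hA, E8H94.WP.NN_zero hr n t X, ← hE]
    have hq0 : (RatFunc.X : RatFunc ℚ) ≠ 0 := E8H94.WP.ratX_ne_zero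
    have hpow : ∀ k : ℕ, k ≠ 0 → (1 : RatFunc ℚ) - RatFunc.X ^ k ≠ 0 := by
      intro k hk
      rw [sub_ne_zero]
      have := E8H94.WP.ratX_zpow (k : ℤ) (by exact_mod_cast hk)
      rw [zpow_natCast] at this
      exact this.symm
    have hE0 : E8H94.WP.toRat E ≠ 0 := by
      rw [hE, map_prod, prod_ne_zero_iff]
      intro i _
      rw [map_pow, map_pow, E8H94.WP.toRat_X]
      exact pow_ne_zero _ (pow_ne_zero _ hq0)
    have hTf : ∀ k ≤ n - 1, E8H94.WP.toRat T = poch (q ^ d) (q ^ d) k *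
        ∏ j ∈ Ico k (n - 1), (1 - q ^ (d + d * j)) := by
      intro k hk
      rw [hT, map_prod, ← Finset.prod_range_mul_prod_Ico _ hk]
      simp only [map_sub, map_one, map_pow, E8H94.WP.toRat_X]
      congr 1
      unfold poch
      apply prod_congr rfl
      intro j _
      rw [← pow_mul, ← pow_add]
      rfl
    have hT0 : E8H94.WP.toRat T ≠ 0 := by
      rw [hT, map_prod, prod_ne_zero_iff]
      intro j _
      rw [map_sub, map_one, map_pow, E8H94.WP.toRat_X]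
      exact hpow _ (by omega)
    have h10 : (1 : Kq) - q ≠ 0 := by
      have := hpow 1 one_ne_zero
      rwa [pow_one] at this
    have hB : E8H94.WP.toRat (E * ((1 - X) * T ^ d))
        = E8H94.WP.toRat E * ((1 - q) * E8H94.WP.toRat T ^ d) := by
      rw [map_mul, map_mul, map_sub, map_one, map_pow, E8H94.WP.toRat_X]
      rfl
    rw [hB, eq_div_iff (mul_ne_zero hE0 (mul_ne_zero h10 (pow_ne_zero _ hT0)))]
    rw [map_mul, map_sum]
    unfold S
    rw [show (∑ k ∈ range n, qInt (2 * d * k + 1) *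
      (poch q (q ^ d) k / poch (q ^ d) (q ^ d) k) ^ d * q ^ (d * (d - 3) * k / 2)) *
      (E8H94.WP.toRat E * ((1 - q) * E8H94.WP.toRat T ^ d))
      = E8H94.WP.toRat E * ((∑ k ∈ range n, qInt (2 * d * k + 1) *
      (poch q (q ^ d) k / poch (q ^ d) (q ^ d) k) ^ d * q ^ (d * (d - 3) * k / 2)) *
      ((1 - q) * E8H94.WP.toRat T ^ d)) by ring]
    congr 1
    rw [Finset.sum_mul]
    apply Finset.sum_congr rfl
    intro k hk
    have hk' : k ≤ n - 1 := by have := mem_range.mp hk; omega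
    have hden : poch (q ^ d) (q ^ d) k ≠ 0 := by
      intro h0
      apply hT0
      rw [hTf k hk', h0, zero_mul]
    rw [hTf k hk']
    simp only [map_mul, map_sub, map_one, map_pow, map_prod, E8H94.WP.toRat_X]
    have e1 : ∏ j ∈ range k, ((1 : RatFunc ℚ) - RatFunc.X ^ (1 + d * j)) = poch q (q ^ d) k := by
      unfold poch
      apply prod_congr rfl
      intro j _
      rw [← pow_mul, pow_add, pow_one]
      rfl
    rw [e1]
    have e2 : (RatFunc.X ^ (d * k)) ^ (r - 1) = q ^ (d * (d - 3) * k / 2) := by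
      rw [← pow_mul]
      congr 1
      have h3 : d - 3 = 2 * (r - 1) := by omega
      rw [h3, show d * (2 * (r - 1)) * k = 2 * (d * k * (r - 1)) by ring,
        Nat.mul_div_cancel_left _ (by norm_num)]
    rw [e2]
    unfold qInt
    rw [div_pow]
    have e3 : (1 : RatFunc ℚ) - RatFunc.X ^ (1 + 2 * d * k) = 1 - q ^ (2 * d * k + 1) := by
      rw [add_comm (1 : ℕ)]; rfl
    rw [e3]
    have e4 : ∏ j ∈ Ico k (n - 1), ((1 : RatFunc ℚ) - RatFunc.X ^ (d + d * j))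
        = ∏ j ∈ Ico k (n - 1), (1 - q ^ (d + d * j)) := rfl
    rw [e4]
    field_simp
    rw [mul_pow, mul_pow]
    ring

end Pool.Agent.Results.MP_3c5a12_nt.CubeCongruenceH94
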